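import Pool.Agent.H2.ST.Targets

/-!
# Symplectic torus actions (MP_51eb24_ag): row LIN, linear algebra
-/

set_option autoImplicit false

open Pool.Agent.H2.ST MvPolynomial

namespace Pool.Agent.H99.ST2

theorem lin_clear (d : ℕ) (c : Fin d → ℚ) :
    ∃ (D : ℕ) (l : Fin d → ℤ), 0 < D ∧ ∀ j, (l j : ℚ) = D * c j := by
  classical
  refine ⟨∏ j, (c j).den, fun j => (c j).num * ∏ i ∈ Finset.univ.erase j, ((c i).den : ℤ), ?_, ?_⟩
  · exact Finset.prod_pos (fun j _ => (c j).den_pos)
  · intro j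
    have h1 : (∏ i, ((c i).den : ℚ)) = (c j).den * ∏ i ∈ Finset.univ.erase j, ((c i).den : ℚ) :=
      (Finset.mul_prod_erase Finset.univ (fun i => ((c i).den : ℚ)) (Finset.mem_univ j)).symm
    push_cast
    rw [h1]
    have h2 : ((c j).num : ℚ) = (c j).den * c j := by
      have := Rat.mul_den_eq_num (c j)
      linarith
    rw [h2]
    ring

theorem lin_fun {d : ℕ} (f : (Fin d → ℚ) →ₗ[ℚ] ℚ) :
    ∃ (D : ℕ) (l : Fin d → ℤ), 0 < D ∧ ∀ x : Fin d → ℤ,
      ((∑ j, l j * x j : ℤ) : ℚ) = D * f (fun j => (x j : ℚ)) := by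
  classical
  obtain ⟨D, l, hD, hl⟩ := lin_clear d (fun j => f (Pi.single j 1))
  refine ⟨D, l, hD, fun x => ?_⟩
  have h1 : (fun j => (x j : ℚ)) = ∑ j, (x j : ℚ) • (Pi.single j (1 : ℚ) : Fin d → ℚ) := by
    funext i
    simp [Finset.sum_apply, Pi.single_apply]
  rw [h1, map_sum]
  push_cast
  rw [Finset.mul_sum]
  refine Finset.sum_congr rfl fun j _ => ?_
  rw [hl j, map_smul, smul_eq_mul]
  ring

theorem pf_LIN : T_LIN := by
  classical
  intro m d w h hc
  set v : {i // w i ≠ 0} → (Fin d → ℚ) := fun i j => (w i.1 j : ℚ) with hv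
  have hspan : Submodule.span ℚ (Set.range v) = ⊤ := by
    by_contra hne
    have hlt : Submodule.span ℚ (Set.range v) < ⊤ := lt_top_iff_ne_top.mpr hne
    obtain ⟨f, hf0, hf⟩ := Submodule.exists_le_ker_of_lt_top _ hlt
    obtain ⟨D, l, hD, hl⟩ := lin_fun f
    have hD' : (0 : ℚ) < D := by exact_mod_cast hD
    have hl0 : l ≠ 0 := by
      intro h0
      apply hf0
      apply LinearMap.pi_ext'
      intro j
      ext
      have h1 := hl (Pi.single j 1)
      rw [h0] at h1
      have h2 : (fun i => ((Pi.single j (1 : ℤ) : Fin d → ℤ) i : ℚ)) =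
          (Pi.single j (1 : ℚ) : Fin d → ℚ) := by
        funext i
        by_cases hi : i = j
        · subst hi; simp
        · simp [hi]
      rw [h2] at h1
      simp at h1
      rcases h1 with h1 | h1
      · exact absurd h1 hD.ne'
      · simpa using h1
    obtain ⟨i, hi⟩ := h l hl0
    apply hi
    by_cases hw : w i = 0
    · simp [hw]
    · have h3 : f (fun j => (w i j : ℚ)) = 0 :=
        hf (Submodule.subset_span ⟨⟨i, hw⟩, rfl⟩)
      have h4 := hl (w i)
      rw [h3, mul_zero] at h4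
      exact_mod_cast h4
  have hfin : Module.finrank ℚ (Fin d → ℚ) = d := by simp
  have hcard : Fintype.card {i // w i ≠ 0} = d := by
    apply le_antisymm
    · rwa [Nat.card_eq_fintype_card] at hc
    · have h1 := finrank_range_le_card (R := ℚ) v
      unfold Set.finrank at h1
      rw [hspan, finrank_top, hfin] at h1
      exact h1
  refine ⟨by rw [Nat.card_eq_fintype_card]; exact hcard, ?_⟩
  intro i hi
  let b := basisOfTopLeSpanOfCardEqFinrank v hspan.ge (by rw [hcard, hfin])
  have hb : ∀ j, b j = v j := fun j => by simp [b]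
  obtain ⟨D, l, hD, hl⟩ := lin_fun (b.coord ⟨i, hi⟩)
  have hD' : (0 : ℚ) < D := by exact_mod_cast hD
  let π : (Fin d → ℤ) →+ ℤ :=
    { toFun := fun x => ∑ j, l j * x j
      map_zero' := by simp
      map_add' := by
        intro x y
        simp [mul_add, Finset.sum_add_distrib] }
  have hπ : ∀ x, ((π x : ℤ) : ℚ) = D * (b.coord ⟨i, hi⟩) (fun j => (x j : ℚ)) := hl
  refine ⟨π, ?_, ?_⟩
  · have h1 := hπ (w i)
    have h2 : (fun j => (w i j : ℚ)) = b ⟨i, hi⟩ := (hb ⟨i, hi⟩).symm
    rw [h2] at h1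
    simp at h1
    have h3 : (0 : ℚ) < (π (w i) : ℤ) := by rw [h1]; exact hD'
    exact_mod_cast h3
  · intro j hj
    by_cases hw : w j = 0
    · rw [hw, map_zero]
    · have h1 := hπ (w j)
      have h2 : (fun i' => (w j i' : ℚ)) = b ⟨j, hw⟩ := (hb ⟨j, hw⟩).symm
      rw [h2, Module.Basis.coord_apply, Module.Basis.repr_self,
        Finsupp.single_eq_of_ne (by intro he; exact hj (congrArg Subtype.val he).symm),
        mul_zero] at h1
      exact_mod_cast h1

end Pool.Agent.H99.ST2
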