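import Pool.Agent.H2.ST.Targets

/-!
# Symplectic torus actions (MP_51eb24_ag): row TRA, translations
-/

set_option autoImplicit false

open Pool.Agent.H2.ST MvPolynomial

namespace Pool.Agent.H99.ST2

theorem pf_TRA : T_TRA := by
  intro k _ m p
  let f : Pol k m →ₐ[k] Pol k m := aeval (fun s => X s + C (p s))
  let g : Pol k m →ₐ[k] Pol k m := aeval (fun s => X s - C (p s))
  have hfX : ∀ s, f (X s) = X s + C (p s) := fun s => aeval_X _ _
  have hgX : ∀ s, g (X s) = X s - C (p s) := fun s => aeval_X _ _
  have hfC : ∀ a, f (C a) = C a := fun a => by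
    simp [f, MvPolynomial.algebraMap_eq]
  have hgC : ∀ a, g (C a) = C a := fun a => by
    simp [g, MvPolynomial.algebraMap_eq]
  have hfg : f.comp g = AlgHom.id k (Pol k m) := by
    apply MvPolynomial.algHom_ext
    intro s
    show f (g (X s)) = X s
    rw [hgX, map_sub, hfX, hfC]
    ring
  have hgf : g.comp f = AlgHom.id k (Pol k m) := by
    apply MvPolynomial.algHom_ext
    intro s
    show g (f (X s)) = X s
    rw [hfX, map_add, hgX, hgC]
    ring
  have hpd : ∀ s (F : Pol k m), pderiv s (f F) = f (pderiv s F) := by
    intro s F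
    induction F using MvPolynomial.induction_on with
    | C a => rw [hfC, pderiv_C, map_zero]
    | add p q hp hq => rw [map_add, map_add, map_add, map_add, hp, hq]
    | mul_X q t hq =>
      rw [map_mul, pderiv_mul, pderiv_mul, map_add, map_mul, map_mul, hq, hfX, map_add,
        pderiv_C, add_zero]
      have : f (pderiv s (X t)) = pderiv s (X t) := by
        by_cases h : s = t
        · subst h
          rw [pderiv_X_self, map_one]
        · rw [pderiv_X_of_ne (Ne.symm h), map_zero]
      rw [this]
  refine ⟨AlgEquiv.ofAlgHom f g hfg hgf, ?_, ?_, ?_⟩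
  · intro F G
    show f (br F G) = br (f F) (f G)
    unfold br
    rw [map_sum]
    refine Finset.sum_congr rfl fun i _ => ?_
    rw [map_sub, map_mul, map_mul, hpd, hpd, hpd, hpd]
  · intro s
    exact hfX s
  · intro F
    show constantCoeff (f F) = eval p F
    induction F using MvPolynomial.induction_on with
    | C a => rw [hfC, constantCoeff_C, eval_C]
    | add p q hp hq => rw [map_add, map_add, map_add, hp, hq]
    | mul_X q t hq =>
      rw [map_mul, map_mul, map_mul, hq, hfX, map_add, constantCoeff_X, constantCoeff_C, eval_X,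
        zero_add]

end Pool.Agent.H99.ST2
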